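import Pool.Agent.Helper98.BH.Final

/-!
# MP_59646b_lc, Q1 (Borel Hedetniemi problem for subgraphs of the shift graph): YES

There are two (induced) Borel subgraphs of the shift graph, both of Borel chromatic number
`ℵ₀`, whose product has Borel chromatic number at most `3`.
-/

namespace Pool.Agent.Results.MP_59646b_lc.BorelHedetniemiFails

open Pool.Agent.BH

theorem result : ∃ G H : ShiftSubgraph, G.IsInduced ∧ H.IsInduced ∧
    borelChrom G.Adj = Cardinal.aleph0 ∧ borelChrom H.Adj = Cardinal.aleph0 ∧
    borelChrom (prodAdj G.Adj H.Adj) ≤ 3 ∧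
    borelChrom (prodAdj G.Adj H.Adj) < min (borelChrom G.Adj) (borelChrom H.Adj) :=
  final

end Pool.Agent.Results.MP_59646b_lc.BorelHedetniemiFails
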